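import Mathlib
import Pool.Prelude.Def_F_a9b43d14
import Pool.Agent.H27.Fact.Final

/-!
# MP_1f2761_nt, k = 2: assembly (ASM), definitions and row statements

`M = n + g` in binary, `a` the first entry, `M - a` the second. A *state* at position `J` is the pair
`(M / 2^J, a / 2^J)`. A window of `W` bits with lowest position `J` appends `W` bits to both
numbers; the bits of `M` are fair, the bits of `a` are drawn from a kernel.
-/

set_option autoImplicit false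

open Finset Filter Topology

namespace Pool.Agent.H93.AS

/-- a window kernel of length `W`, at all positions `J`: arguments `J n α η ξ` -/
structure Ker (W : ℕ) where
  k : ℕ → ℕ → ℕ → ℕ → ℕ → ℝ
  nonneg : ∀ J n α η ξ, 0 ≤ k J n α η ξ
  sum_one : ∀ J n α, ∀ η < 2 ^ W, ∑ ξ ∈ range (2 ^ W), k J n α η ξ = 1

/-- the level `p^I` has a carry whatever the bits below position `J` are -/
def Sure (p I J n α : ℕ) : Prop :=
  ∀ u < 2 ^ J, ∀ v < 2 ^ J, (n * 2 ^ J + u) % p ^ I < (α * 2 ^ J + v) % p ^ I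

open Classical in
/-- number of levels of the window `[J, J+W)` which are not sure; `(n, α)` is the state at
position `J` (after the window) -/
noncomputable def bad (p J W n α : ℕ) : ℕ :=
  ((range (J + W)).filter fun I => 2 ^ J ≤ p ^ I ∧ p ^ I < 2 ^ (J + W) ∧ ¬ Sure p I J n α).card

/-- expected number of bad levels of a window from the state `(n, α)` at position `J + W` -/
noncomputable def eb {W : ℕ} (κ : Ker W) (p J n α : ℕ) : ℝ :=
  (∑ η ∈ range (2 ^ W), ∑ ξ ∈ range (2 ^ W),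
    κ.k J n α η ξ * bad p J W (n * 2 ^ W + η) (α * 2 ^ W + ξ)) / 2 ^ W

/-- allowed density (per bit) of bad levels in base `p` in a window of type `q` -/
noncomputable def rate (q : ℕ) (x : ℝ) (p : ℕ) : ℝ :=
  if p = 2 then 0 else if p = q then (1 - x) * (Real.log 2 / Real.log p)
  else 1 / 2 * (Real.log 2 / Real.log p)

/-- THE INTERFACE between the analysis and the assembly -/
def WIN (q : ℕ) (x : ℝ) : Prop :=
  ∀ ε : ℝ, 0 < ε → ∀ P₀ : ℕ, ∃ W : ℕ, 0 < W ∧ ∃ κ : Ker W, ∃ β : ℕ → ℕ → ℝ,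
    (∀ p, p.Prime → p ≤ P₀ → ∀ J n α, eb κ p J n α ≤ β p J) ∧
    (∀ p, p.Prime → p ≤ P₀ → ∀ D, 0 < D → ∀ c, ∃ K₀ : ℕ, ∀ K ≥ K₀,
      ∑ k ∈ range K, β p (c + k * D) ≤ K * ((rate q x p + ε) * W))

/-! ## Carries and valuations -/

/-- number of carries of `a + (M - a)` in base `p` (levels `1..L`) -/
def Cp (p L M a : ℕ) : ℕ := ((Ico 1 (L + 1)).filter fun i => M % p ^ i < a % p ^ i).card

/-- number of levels above `g` at which `M` has a small residue -/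
def Tp (p g L M : ℕ) : ℕ := ((range (L + 1)).filter fun i => g < p ^ i ∧ M % p ^ i < g).card

/-- row CAR: enough carries imply the valuation inequality -/
def CARStmt : Prop := ∀ p g L M a : ℕ, p.Prime → a ≤ M → M < 2 ^ L → g ≤ M →
  M.factorial.factorization p ≤ (M - g).factorial.factorization p + Cp p L M a →
  a.factorial.factorization p + (M - a).factorial.factorization p ≤
    (M - g).factorial.factorization p

/-- row VAL: size of the valuation of `M (M-1) ... (M-g+1)` -/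
def VALStmt : Prop := ∀ p g L M : ℕ, p.Prime → M < 2 ^ L → g ≤ M →
  M.factorial.factorization p ≤ (M - g).factorial.factorization p + g / (p - 1) + Nat.log 2 g
    + Tp p g L M

/-- row LAR: large primes -/
def LARStmt : Prop := ∀ p g L M a : ℕ, p.Prime → g < p → M < 2 ^ L → g ≤ M →
  (g ≤ M % p ∨ g ≤ a % p) →
  M.factorial.factorization p ≤ (M - g).factorial.factorization p + Cp p L M a

/-- row TYA: for almost all `M`, `Tp` is small for all `p ≤ L^4` -/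
def TYAStmt : Prop := ∀ δ : ℝ, 0 < δ → ∃ L₀ : ℕ, ∀ L ≥ L₀, ∀ g ≤ L,
  (((range (2 ^ L)).filter fun M => ∃ p ≤ L ^ 4, p.Prime ∧ 10 * Nat.log 2 L + 10 < Tp p g L M).card : ℝ)
    ≤ δ * 2 ^ L

/-- the digit sums of `M` below position `B` are not large -/
def TypD (P₀ L B M : ℕ) : Prop := ∀ p, p.Prime → P₀ < p → p ≤ L ^ 4 →
  (Pool.Agent.H27.Fact.sp p (M % p ^ Nat.log p (2 ^ B)) : ℝ) ≤
    (1 / 2 + 1 / 20) * (p - 1) * (Nat.log p (2 ^ B) : ℝ)

open Classical in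
/-- row TYB: almost all `M` are typical -/
def TYBStmt : Prop := ∀ θ : ℝ, 0 < θ → ∀ δ : ℝ, 0 < δ → ∀ P₀ : ℕ, ∃ L₀ : ℕ, ∀ L ≥ L₀, ∀ B ≤ L,
  θ * L ≤ B → (((range (2 ^ L)).filter fun M => ¬ TypD P₀ L B M).card : ℝ) ≤ δ * 2 ^ L

/-- row BOT: the free bottom window of `B` bits -/
def BOTStmt : Prop := ∀ θ : ℝ, 0 < θ → ∃ P₀ : ℕ, ∃ L₀ : ℕ, ∀ L ≥ L₀, ∀ B ≤ L, θ * L ≤ B →
  ∀ M < 2 ^ L, TypD P₀ L B M → ∀ α : ℕ, α * 2 ^ B + 2 ^ B ≤ M → ∃ u < 2 ^ B,
    (∀ p, p.Prime → P₀ < p → p ≤ L ^ 4 →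
      (L : ℝ) / (p - 1) + 20 * Nat.log 2 L + 20 ≤ Cp p L M (α * 2 ^ B + u)) ∧
    (∀ p, p.Prime → L ^ 4 < p → L ≤ M % p ∨ L ≤ (α * 2 ^ B + u) % p)

/-! ## The chain of windows -/

/-- total length -/
def tot (ws : List (Σ W, Ker W)) : ℕ := (ws.map fun w => w.1).sum

/-- expectation over the windows of the list (highest first) above position `B` -/
noncomputable def Ex (B : ℕ) : List (Σ W, Ker W) → (ℕ → ℕ → ℝ) → ℕ → ℕ → ℝ
  | [], F, n, α => F n α
  | w :: ws, F, n, α => ∑ η ∈ range (2 ^ w.1), ∑ ξ ∈ range (2 ^ w.1),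
      w.2.k (B + tot ws) n α η ξ * Ex B ws F (n * 2 ^ w.1 + η) (α * 2 ^ w.1 + ξ)

/-- total number of bad levels; `(n, α)` is the final state, at position `B` -/
noncomputable def tb (p B : ℕ) : List (Σ W, Ker W) → ℕ → ℕ → ℕ
  | [], _, _ => 0
  | w :: ws, n, α => bad p (B + tot ws) w.1 (n / 2 ^ tot ws) (α / 2 ^ tot ws) + tb p B ws n α

open Classical in
/-- row CH0: strategy principle -/
def CH0Stmt : Prop := ∀ (B : ℕ) (ws : List (Σ W, Ker W)) (F : ℕ → ℕ → ℝ), (∀ n α, 0 ≤ F n α) →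
  ∀ n α, (((range (2 ^ tot ws)).filter fun M => ∀ a < 2 ^ tot ws,
    1 ≤ F (n * 2 ^ tot ws + M) (α * 2 ^ tot ws + a)).card : ℝ) ≤ Ex B ws F n α

/-- the bounds `b` dominate the expected numbers of bad levels -/
def Dom (p B : ℕ) : List (Σ W, Ker W) → List ℝ → Prop
  | [], [] => True
  | w :: ws, b :: bs => (∀ n α, eb w.2 p (B + tot ws) n α ≤ b) ∧ Dom p B ws bs
  | _, _ => False

/-- row CH1: exponential moment -/
def CH1Stmt : Prop := ∀ (p B : ℕ), 2 ≤ p → ∀ (ws : List (Σ W, Ker W)) (bs : List ℝ) (t : ℝ) (Wm : ℕ),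
  Dom p B ws bs → 0 ≤ t → (∀ w ∈ ws, w.1 ≤ Wm) → t * Wm ≤ 1 → ∀ n α,
  Ex B ws (fun n α => Real.exp (t * tb p B ws n α)) n α ≤
    2 ^ tot ws * Real.exp (t * bs.sum + ws.length * (t * Wm) ^ 2)

/-- row LEV: carries from sure levels -/
def LEVStmt : Prop := ∀ (p B L M a : ℕ) (ws : List (Σ W, Ker W)), p.Prime → B + tot ws ≤ L →
  (tot ws : ℝ) * (Real.log 2 / Real.log p) - 1 - tb p B ws (M / 2 ^ B) (a / 2 ^ B) ≤ Cp p L M a

/-! ## Numbers -/

def NUMStmt : Prop :=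
  1 / 2 < (4 / 5 * (33 / 38) + 1 / 10) * (Real.log 2 / Real.log 3) ∧
  1 / 4 < (1 / 5 * (86 / 95) + 2 / 5) * (Real.log 2 / Real.log 5) ∧
  ∀ p : ℕ, 7 ≤ p → 1 / ((p:ℝ) - 1) < 49 / 100 * (Real.log 2 / Real.log p)

/-! ## The result in terms of dyadic ranges, and the final theorem -/

open Classical in
/-- for almost all `M < 2^L` the value of `g_2` at `M - g` is at least `g = ⌊(1-ε) L⌋` -/
def DYAStmt : Prop := ∀ ε : ℝ, 0 < ε → ∀ δ : ℝ, 0 < δ → ∃ L₀ : ℕ, ∀ L ≥ L₀,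
  (((range (2 ^ L)).filter fun M => ⌊(1 - ε) * L⌋₊ ≤ M ∧
    Nfa7bfd82.g 2 (M - ⌊(1 - ε) * L⌋₊) < ⌊(1 - ε) * L⌋₊).card : ℝ) ≤ δ * 2 ^ L

open Classical in
/-- row NRM: normal order -/
def NRMStmt : Prop := DYAStmt → ∀ ε : ℝ, 0 < ε →
  Tendsto (fun x : ℕ => (((Icc 1 x).filter fun n : ℕ =>
    ¬ |(Nfa7bfd82.g 2 n : ℝ) - Real.log n / Real.log 2| ≤ ε * Real.log n).card : ℝ) / x) atTop (𝓝 0)

/-- row FIN: the average -/
def FINStmt : Prop := DYAStmt →
  Tendsto (fun x : ℕ => (∑ n ∈ Icc 1 x, (Nfa7bfd82.g 2 n : ℝ)) / (x * Real.log x)) atTop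
    (𝓝 (1 / Real.log 2))

end Pool.Agent.H93.AS
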