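import Pool.Agent.H93.AS.Comb

/-! COMB : Win → rows → DYAStmt, the theorem. -/

set_option autoImplicit false

open Finset Filter Topology

namespace Pool.Agent.H93.AS

open Pool.Agent.H24

lemma c_bound (hNUM : NUMStmt) (p : ℕ) (hp : p.Prime) :
    1 / ((p:ℝ) - 1) ≤ Real.log 2 / Real.log p - 1 / 5 * FD.dens 5 p - 4 / 5 * FD.dens 3 p := by
  have hl2 : 0 < Real.log 2 := Real.log_pos (by norm_num)
  obtain ⟨h3, h5, h7⟩ := hNUM
  have hρ : ∀ c : ℝ, c / Real.logb 2 p = c * (Real.log 2 / Real.log p) := by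
    intro c
    rw [Real.logb, div_div_eq_mul_div, mul_div_assoc]
  by_cases e2 : p = 2
  · subst e2
    have d5 : FD.dens 5 2 = 0 := by simp [FD.dens]
    have d3 : FD.dens 3 2 = 0 := by simp [FD.dens]
    rw [d5, d3]
    push_cast
    rw [div_self hl2.ne']
    norm_num
  · by_cases e3 : p = 3
    · subst e3
      have d5 : FD.dens 5 3 = 1 / 2 * (Real.log 2 / Real.log (3:ℕ)) := by
        rw [← hρ]; simp [FD.dens]
      have d3 : FD.dens 3 3 = 5 / 38 * (Real.log 2 / Real.log (3:ℕ)) := by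
        rw [← hρ]; simp [FD.dens]
      rw [d5, d3]
      push_cast
      have : (0:ℝ) < 1 := one_pos
      norm_num at h3 ⊢
      linarith
    · by_cases e5 : p = 5
      · subst e5
        have d5 : FD.dens 5 5 = 9 / 95 * (Real.log 2 / Real.log (5:ℕ)) := by
          rw [← hρ]; simp [FD.dens]
        have d3 : FD.dens 3 5 = 1 / 2 * (Real.log 2 / Real.log (5:ℕ)) := by
          rw [← hρ]; simp [FD.dens]
        rw [d5, d3]
        push_cast
        norm_num at h5 ⊢
        linarith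
      · have d5 : FD.dens 5 p = 1 / 2 * (Real.log 2 / Real.log p) := by
          rw [← hρ]; simp [FD.dens, e2, e5]
        have d3 : FD.dens 3 p = 1 / 2 * (Real.log 2 / Real.log p) := by
          rw [← hρ]; simp [FD.dens, e2, e3]
        have hp7 : 7 ≤ p := by
          have h2 := hp.two_le
          by_contra hlt
          push Not at hlt
          interval_cases p
          · exact e2 rfl
          · exact e3 rfl
          · exact absurd hp (by decide)
          · exact e5 rfl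
          · exact absurd hp (by decide)
        have h := h7 p hp7
        have hpos : 0 ≤ Real.log 2 / Real.log p := div_nonneg hl2.le (Real.log_natCast_nonneg p)
        rw [d5, d3]
        linarith

/-- logarithms are small -/
lemma ev_log (c C : ℝ) (hc : 0 < c) : ∀ᶠ L : ℕ in atTop, C + 11 * (Nat.log 2 L : ℝ) ≤ c * L := by
  have h := Pool.Agent.H27.Fact.ev1 (C / 4) (κ := c / 4) (by positivity)
  have h2 := (tendsto_natCast_atTop_atTop (R := ℝ)).eventually h
  filter_upwards [h2, eventually_ge_atTop 1] with L hL hL1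
  have hl2 : (0.6931471803 : ℝ) < Real.log 2 := Real.log_two_gt_d9
  have h3 := Pool.Agent.H27.Fact.natlog_le L
  have h4 : 0 ≤ Real.log (L:ℝ) := Real.log_natCast_nonneg L
  have h5 : 11 * (Nat.log 2 L : ℝ) ≤ 16 * Real.log L := by
    have : (Nat.log 2 L : ℝ) * Real.log 2 ≤ Real.log L := by
      rwa [le_div_iff₀ (by linarith)] at h3
    have h6 : (0:ℝ) ≤ Nat.log 2 L := by positivity
    have h7 := mul_le_mul_of_nonneg_left hl2.le h6
    linarith
  linarith

/-- splitting the count along the three parts of `M` -/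
lemma split_count (T₁ T B : ℕ) (G : ℕ → Prop) [DecidablePred G] (E : ℝ)
    (h : ∀ n, (((range (2 ^ T)).filter fun M => ¬ G (n * 2 ^ T + M)).card : ℝ) ≤ 2 ^ T * E) :
    (((range (2 ^ (T₁ + T + B))).filter fun M => ¬ G (M / 2 ^ B)).card : ℝ) ≤ 2 ^ (T₁ + T + B) * E := by
  classical
  have e1 : (((range (2 ^ (T₁ + T + B))).filter fun M => ¬ G (M / 2 ^ B)).card : ℝ) =
      ∑ n ∈ range (2 ^ T₁), ∑ M ∈ range (2 ^ T), ∑ _u ∈ range (2 ^ B),
        (if ¬ G (n * 2 ^ T + M) then (1:ℝ) else 0) := by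
    rw [card_filter]
    push_cast
    rw [pow_add, pow_add, sum_mul_range, sum_mul_range]
    apply sum_congr rfl
    intro n _
    apply sum_congr rfl
    intro M _
    apply sum_congr rfl
    intro u hu
    have : ((n * 2 ^ T + M) * 2 ^ B + u) / 2 ^ B = n * 2 ^ T + M := by
      rw [mul_comm, Nat.mul_add_div (by positivity), Nat.div_eq_of_lt (mem_range.1 hu), add_zero]
    rw [this]
  rw [e1]
  have e2 : ∀ n ∈ range (2 ^ T₁), ∑ M ∈ range (2 ^ T), ∑ _u ∈ range (2 ^ B),
        (if ¬ G (n * 2 ^ T + M) then (1:ℝ) else 0) ≤ 2 ^ B * (2 ^ T * E) := by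
    intro n _
    have : ∑ M ∈ range (2 ^ T), ∑ _u ∈ range (2 ^ B), (if ¬ G (n * 2 ^ T + M) then (1:ℝ) else 0)
        = 2 ^ B * (((range (2 ^ T)).filter fun M => ¬ G (n * 2 ^ T + M)).card : ℝ) := by
      rw [card_filter]
      push_cast
      rw [mul_sum]
      apply sum_congr rfl
      intro M _
      rw [sum_const, card_range, nsmul_eq_mul]
      push_cast
      rfl
    rw [this]
    exact mul_le_mul_of_nonneg_left (h n) (by positivity)
  refine (sum_le_sum e2).trans ?_
  rw [sum_const, card_range, nsmul_eq_mul]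
  push_cast
  apply le_of_eq
  ring

theorem comb (hWin : FD.Win) (hCAR : CARStmt) (hVAL : VALStmt) (hLAR : LARStmt) (hTYA : TYAStmt)
    (hTYB : TYBStmt) (hBOT : BOTStmt) (hNUM : NUMStmt) : DYAStmt := by
  classical
  intro ε hε δ hδ
  by_cases hε1 : 1 ≤ ε
  · refine ⟨0, fun L _ => ?_⟩
    have h0 : ⌊(1 - ε) * L⌋₊ = 0 := by
      apply Nat.floor_of_nonpos
      apply mul_nonpos_of_nonpos_of_nonneg
      · linarith
      · positivity
    rw [h0]
    have : ((range (2 ^ L)).filter fun M => 0 ≤ M ∧ Nfa7bfd82.g 2 (M - 0) < 0) = ∅ := by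
      apply filter_false_of_mem
      intro M _ h
      exact absurd h.2 (by omega)
    rw [this]
    simp only [card_empty, Nat.cast_zero]
    positivity
  push Not at hε1
  set θ : ℝ := ε / 8 with hθdef
  have hθ : 0 < θ := by positivity
  obtain ⟨P₀, L₁, hbot⟩ := hBOT θ hθ
  set P : ℝ := (P₀ : ℝ) + 1 with hP
  have hP1 : 1 ≤ P := by rw [hP]; linarith [(Nat.cast_nonneg P₀ : (0:ℝ) ≤ P₀)]
  set ε₂ : ℝ := ε / (16 * P) with hε₂def
  have hε₂ : 0 < ε₂ := by positivity
  have hε₂1 : ε₂ ≤ 1 := by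
    rw [hε₂def, div_le_one (by positivity)]; linarith
  obtain ⟨W, hW0, hq⟩ := hWin ε₂ hε₂ P₀
  obtain ⟨Q3, β3, h3a, h3b, h3c, h3d⟩ := hq 3 (Or.inl rfl)
  obtain ⟨Q5, β5, h5a, h5b, h5c, h5d⟩ := hq 5 (Or.inr rfl)
  have hW0' : (0:ℝ) < W := by exact_mod_cast hW0
  -- a common K
  have hK : ∃ K₁ : ℕ, ∀ p ≤ P₀, p.Prime → ∀ K ≥ K₁, ∀ J : ℕ,
      (∑ i ∈ range K, β3 p (J + i * W) ≤ (FD.dens 3 p + ε₂) * (K * W)) ∧
      (∑ i ∈ range K, β5 p (J + i * W) ≤ (FD.dens 5 p + ε₂) * (K * W)) := by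
    choose! k3 hk3 using h3d
    choose! k5 hk5 using h5d
    refine ⟨∑ p ∈ range (P₀ + 1), (k3 p + k5 p), fun p hp hpp K hK J => ?_⟩
    have h1 : k3 p + k5 p ≤ ∑ p ∈ range (P₀ + 1), (k3 p + k5 p) :=
      single_le_sum (f := fun p => k3 p + k5 p) (fun _ _ => Nat.zero_le _) (mem_range.2 (by omega))
    exact ⟨hk3 p hp hpp K (by omega) J, hk5 p hp hpp K (by omega) J⟩
  obtain ⟨K₁, hK₁⟩ := hK
  let w3 : Σ W, Ker W := ⟨W, kerOf W Q3 h3a h3b⟩
  let w5 : Σ W, Ker W := ⟨W, kerOf W Q5 h5a h5b⟩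
  let S : Finset ℕ := (range (P₀ + 1)).filter Nat.Prime
  have hSm : ∀ p, p ∈ S ↔ p ≤ P₀ ∧ p.Prime := by
    intro p; simp only [S, mem_filter, mem_range]
    constructor
    · rintro ⟨a, b⟩; exact ⟨by omega, b⟩
    · rintro ⟨a, b⟩; exact ⟨by omega, b⟩
  have hScard : (S.card : ℝ) ≤ P := by
    have : S.card ≤ P₀ + 1 := (card_filter_le _ _).trans (by simp)
    rw [hP]; exact_mod_cast this
  -- the constant for the middle part
  have hK₂ : ∃ K₂ : ℕ, P * Real.exp (-(5 * (K₂:ℝ) * ε₂ ^ 2 / 4)) ≤ δ / 4 := by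
    have ht : Tendsto (fun K : ℕ => P * Real.exp (-(5 * (K:ℝ) * ε₂ ^ 2 / 4))) atTop (𝓝 0) := by
      have h1 : Tendsto (fun K : ℕ => 5 * (K:ℝ) * ε₂ ^ 2 / 4) atTop atTop := by
        have : (fun K : ℕ => 5 * (K:ℝ) * ε₂ ^ 2 / 4) = fun K : ℕ => (5 * ε₂ ^ 2 / 4) * (K:ℝ) := by
          ext K; ring
        rw [this]
        exact tendsto_natCast_atTop_atTop.const_mul_atTop (by positivity)
      have h2 := (Real.tendsto_exp_neg_atTop_nhds_zero.comp h1).const_mul P
      simpa using h2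
    obtain ⟨K₂, hK₂⟩ := (ht.eventually (ge_mem_nhds (show (0:ℝ) < δ / 4 by positivity))).exists
    exact ⟨K₂, hK₂⟩
  obtain ⟨K₂, hK₂⟩ := hK₂
  obtain ⟨L₂, hL₂⟩ := hTYA (δ / 4) (by positivity)
  obtain ⟨L₃, hL₃⟩ := hTYB θ hθ (δ / 4) (by positivity) P₀
  obtain ⟨r, hr⟩ := exists_pow_lt_of_lt_one (show (0:ℝ) < δ / 4 by positivity) (show (1/2:ℝ) < 1 by norm_num)
  have hev := ev_log (5 * ε / (8 * P)) (5 * W + 11) (by positivity)
  have hev2 : ∀ᶠ L : ℕ in atTop, (r:ℝ) + 1 ≤ θ * L := by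
    have := (tendsto_natCast_atTop_atTop (R := ℝ)).const_mul_atTop hθ
    exact this.eventually_ge_atTop _
  have hev3 : ∀ᶠ L : ℕ in atTop, ((K₁:ℝ) + K₂ + 1) ≤ (1 - 2 * θ) / (5 * W) * L := by
    have hpos : 0 < (1 - 2 * θ) / (5 * W) := by
      apply div_pos _ (by positivity)
      rw [hθdef]; linarith
    have := (tendsto_natCast_atTop_atTop (R := ℝ)).const_mul_atTop hpos
    exact this.eventually_ge_atTop _
  obtain ⟨L₄, hL₄⟩ := eventually_atTop.1 ((hev.and hev2).and hev3)
  refine ⟨L₁ + L₂ + L₃ + L₄ + 1, fun L hL => ?_⟩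
  obtain ⟨⟨c1, c2⟩, c3⟩ := hL₄ L (by omega)
  have hLpos : (0:ℝ) < L := by exact_mod_cast (by omega : 0 < L)
  set B : ℕ := ⌈θ * L⌉₊ with hB
  set m : ℕ := ⌊(1 - 2 * θ) / (5 * W) * L⌋₊ with hm
  have hB1 : θ * L ≤ B := Nat.le_ceil _
  have hB2 : (B:ℝ) < θ * L + 1 := Nat.ceil_lt_add_one (by positivity)
  have h12θ : 0 < 1 - 2 * θ := by rw [hθdef]; linarith
  have hm1 : (m:ℝ) ≤ (1 - 2 * θ) / (5 * W) * L := Nat.floor_le (by positivity)
  have hm2 : (1 - 2 * θ) / (5 * W) * L < m + 1 := Nat.lt_floor_add_one _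
  have hmK : K₁ + K₂ ≤ m := by
    have : ((K₁ + K₂ : ℕ) : ℝ) < m + 1 := by push_cast; linarith
    have : K₁ + K₂ < m + 1 := by exact_mod_cast this
    omega
  set ws : List (Σ W, Ker W) := List.replicate m w5 ++ List.replicate (4 * m) w3 with hws
  have htot3 : tot (List.replicate (4 * m) w3) = 4 * m * W := tot_replicate _ _
  have htot : tot ws = 5 * m * W := by
    rw [hws, tot_append, tot_replicate, tot_replicate]
    show m * W + 4 * m * W = 5 * m * W
    ring
  set T : ℕ := 5 * m * W with hT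
  have hTr : (T:ℝ) = 5 * W * m := by rw [hT]; push_cast; ring
  have hT1 : (T:ℝ) ≤ (1 - 2 * θ) * L := by
    rw [hTr]
    calc 5 * W * (m:ℝ) ≤ 5 * W * ((1 - 2 * θ) / (5 * W) * L) :=
          mul_le_mul_of_nonneg_left hm1 (by positivity)
      _ = (1 - 2 * θ) * L := by field_simp
  have hT2 : (1 - 2 * θ) * L - 5 * W ≤ T := by
    rw [hTr]
    have : 5 * W * ((1 - 2 * θ) / (5 * W) * L) ≤ 5 * W * ((m:ℝ) + 1) :=
      mul_le_mul_of_nonneg_left hm2.le (by positivity)
    have e : 5 * W * ((1 - 2 * θ) / (5 * W) * L) = (1 - 2 * θ) * L := by field_simp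
    linarith
  have hTB : T + B + r ≤ L := by
    have : ((T + B + r : ℕ) : ℝ) ≤ L := by push_cast; linarith
    exact_mod_cast this
  obtain ⟨T₁, hT₁⟩ : ∃ T₁, L = T₁ + T + B := ⟨L - T - B, by omega⟩
  have hrT₁ : r ≤ T₁ := by omega
  set g : ℕ := ⌊(1 - ε) * L⌋₊ with hg
  have h1ε : 0 ≤ 1 - ε := by linarith
  have hgr : (g:ℝ) ≤ (1 - ε) * L := Nat.floor_le (by positivity)
  have hgL : g ≤ L := by
    have : (g:ℝ) ≤ L := by
      refine hgr.trans ?_
      linarith [mul_nonneg hε.le (Nat.cast_nonneg L : (0:ℝ) ≤ L)]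
    exact_mod_cast this
  -- bounds
  let bs : ℕ → List ℝ := fun p => runb (β5 p) (B + 4 * m * W) W m ++ runb (β3 p) B W (4 * m)
  have hDom : ∀ p ∈ S, Dom p B ws (bs p) := by
    intro p hp
    obtain ⟨hpP, hpp⟩ := (hSm p).1 hp
    apply dom_append
    · rw [htot3]
      exact dom_run p (B + 4 * m * W) w5 (β5 p) (fun J n α => eb_kerOf h5a h5b (h5c p hpP hpp J) n α) m
    · exact dom_run p B w3 (β3 p) (fun J n α => eb_kerOf h3a h3b (h3c p hpP hpp J) n α) (4 * m)
  have hbs : ∀ p ∈ S, (bs p).sum ≤ T * (1 / 5 * FD.dens 5 p + 4 / 5 * FD.dens 3 p + ε₂) := by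
    intro p hp
    obtain ⟨hpP, hpp⟩ := (hSm p).1 hp
    have h1 := (hK₁ p hpP hpp m (by omega) (B + 4 * m * W)).2
    have h2 := (hK₁ p hpP hpp (4 * m) (by omega) B).1
    simp only [bs, List.sum_append, runb_sum]
    push_cast at h1 h2
    rw [hTr]
    calc _ ≤ (FD.dens 5 p + ε₂) * (m * W) + (FD.dens 3 p + ε₂) * (4 * m * W) := add_le_add h1 h2
      _ = _ := by ring
  have hwsW : ∀ w ∈ ws, w.1 ≤ W := by
    intro w hw
    rw [hws, List.mem_append] at hw
    rcases hw with h | h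
    · rw [(List.mem_replicate.1 h).2]
    · rw [(List.mem_replicate.1 h).2]
  have hlen : ws.length = 5 * m := by
    rw [hws, List.length_append, List.length_replicate, List.length_replicate]; ring
  -- the middle part
  set G : ℕ → Prop := fun N => ∃ a < 2 ^ T, ∀ p ∈ S,
      (tb p B ws N a : ℝ) < (bs p).sum + ε₂ * T with hG
  have hmid : ∀ n, (((range (2 ^ T)).filter fun M => ¬ G (n * 2 ^ T + M)).card : ℝ) ≤ 2 ^ T * (δ / 4) := by
    intro n
    have h1 := middle B W S (fun p hp => ((hSm p).1 hp).2.two_le) ws bs hDom hwsW (ε₂ / (2 * W))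
      (ε₂ * T) (by positivity) (by
        rw [div_mul_eq_mul_div, div_le_one (by positivity)]
        exact mul_le_mul_of_nonneg_right (hε₂1.trans one_le_two) (Nat.cast_nonneg W)) n 0
    rw [htot] at h1
    simp only [zero_mul, zero_add] at h1
    refine h1.trans ?_
    apply mul_le_mul_of_nonneg_left _ (by positivity)
    have hexp : (ws.length : ℝ) * (ε₂ / (2 * W) * W) ^ 2 - ε₂ / (2 * W) * (ε₂ * T) =
        -(5 * (m:ℝ) * ε₂ ^ 2 / 4) := by
      rw [hlen, hTr]
      push_cast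
      field_simp
      ring
    rw [hexp]
    calc (S.card : ℝ) * Real.exp (-(5 * (m:ℝ) * ε₂ ^ 2 / 4))
        ≤ P * Real.exp (-(5 * (K₂:ℝ) * ε₂ ^ 2 / 4)) := by
          apply mul_le_mul hScard _ (Real.exp_pos _).le (by linarith)
          apply Real.exp_le_exp.2
          have : (K₂:ℝ) ≤ m := by exact_mod_cast (by omega : K₂ ≤ m)
          have : 5 * (K₂:ℝ) * ε₂ ^ 2 / 4 ≤ 5 * (m:ℝ) * ε₂ ^ 2 / 4 := by gcongr
          linarith
      _ ≤ δ / 4 := hK₂
  have hA2 := split_count T₁ T B G (δ / 4) hmid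
  rw [← hT₁] at hA2
  have hA4 := hL₂ L (by omega) g hgL
  have hA3 := hL₃ L (by omega) B (by omega) hB1
  -- the exceptional set
  have hsub : ((range (2 ^ L)).filter fun M => g ≤ M ∧ Nfa7bfd82.g 2 (M - g) < g) ⊆
      ((range (2 ^ (T + B))) ∪ ((range (2 ^ L)).filter fun M => ¬ G (M / 2 ^ B))) ∪
      (((range (2 ^ L)).filter fun M => ¬ TypD P₀ L B M) ∪
        ((range (2 ^ L)).filter fun M => ∃ p ≤ L ^ 4, p.Prime ∧ 10 * Nat.log 2 L + 10 < Tp p g L M)) := by
    intro M hM
    rw [mem_filter, mem_range] at hM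
    obtain ⟨hML, hgM, hbad⟩ := hM
    by_contra hcon
    rw [mem_union, mem_union, mem_union, mem_range, mem_filter, mem_filter, mem_filter, mem_range] at hcon
    push Not at hcon
    obtain ⟨⟨n1, n2⟩, n3, n4⟩ := hcon
    have hG' : G (M / 2 ^ B) := n2 hML
    have hTyp : TypD P₀ L B M := n3 hML
    have hTp := n4 hML
    obtain ⟨α, hα, htb⟩ := hG'
    have hαM : α * 2 ^ B + 2 ^ B ≤ M := by
      calc α * 2 ^ B + 2 ^ B = (α + 1) * 2 ^ B := by ring
        _ ≤ 2 ^ T * 2 ^ B := Nat.mul_le_mul_right _ hα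
        _ = 2 ^ (T + B) := (pow_add _ _ _).symm
        _ ≤ M := n1
    obtain ⟨u, hu, hu1, hu2⟩ := hbot L (by omega) B (by omega) hB1 M hML hTyp α hαM
    set a : ℕ := α * 2 ^ B + u with ha
    have haM : a ≤ M := by omega
    have haB : a / 2 ^ B = α := by
      rw [ha, mul_comm, Nat.mul_add_div (by positivity), Nat.div_eq_of_lt hu, add_zero]
    have hlogg : Nat.log 2 g ≤ Nat.log 2 L := Nat.log_mono_right hgL
    have hkey : ∀ p : ℕ, p.Prime → M.factorial.factorization p ≤
        (M - g).factorial.factorization p + Cp p L M a := by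
      intro p hp
      have hp1 : (1:ℝ) ≤ (p:ℝ) - 1 := by
        have : (2:ℝ) ≤ p := by exact_mod_cast hp.two_le
        linarith
      have hdiv : ((g / (p - 1) : ℕ) : ℝ) ≤ g / ((p:ℝ) - 1) := by
        have h1 : ((g / (p - 1) : ℕ) : ℝ) ≤ (g:ℝ) / ((p - 1 : ℕ) : ℝ) := Nat.cast_div_le
        rwa [Nat.cast_sub hp.one_le, Nat.cast_one] at h1
      by_cases hpL : p ≤ L ^ 4
      · have hT' : Tp p g L M ≤ 10 * Nat.log 2 L + 10 := hTp p hpL hp
        have hv := hVAL p g L M hp hML hgM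
        have hgoal : ((g / (p - 1) : ℕ) : ℝ) + Nat.log 2 g + Tp p g L M ≤ Cp p L M a := by
          have hT'' : (Tp p g L M : ℝ) ≤ 10 * (Nat.log 2 L : ℝ) + 10 := by exact_mod_cast hT'
          have hlogg' : (Nat.log 2 g : ℝ) ≤ Nat.log 2 L := by exact_mod_cast hlogg
          by_cases hpP : p ≤ P₀
          · have hlev := lev p B L M a ws hp (by rw [htot]; omega)
            rw [haB, htot] at hlev
            have hpS : p ∈ S := (hSm p).2 ⟨hpP, hp⟩
            have h1 := htb p hpS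
            have h2 := hbs p hpS
            have hc := c_bound hNUM p hp
            set c := Real.log 2 / Real.log p - 1 / 5 * FD.dens 5 p - 4 / 5 * FD.dens 3 p with hcdef
            have h3 : (T:ℝ) * (c - 2 * ε₂) - 1 ≤ Cp p L M a := by
              have : (T:ℝ) * (Real.log 2 / Real.log p) - (T * (1 / 5 * FD.dens 5 p + 4 / 5 * FD.dens 3 p + ε₂) + ε₂ * T)
                  = T * (c - 2 * ε₂) := by rw [hcdef]; ring
              linarith
            have hpP' : (p:ℝ) - 1 ≤ P := by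
              have : (p:ℝ) ≤ P₀ := by exact_mod_cast hpP
              rw [hP]; linarith
            have hinv : 1 / P ≤ 1 / ((p:ℝ) - 1) := one_div_le_one_div_of_le (by linarith) hpP'
            have hε₂P : 2 * ε₂ = ε / 8 * (1 / P) := by
              rw [hε₂def]; field_simp; ring
            have hx : 0 ≤ 1 / ((p:ℝ) - 1) - 2 * ε₂ := by
              rw [hε₂P]
              have : ε / 8 * (1 / P) ≤ 1 * (1 / P) := mul_le_mul_of_nonneg_right (by linarith) (by positivity)
              linarith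
            have h4 : ((1 - 2 * θ) * L - 5 * W) * (1 / ((p:ℝ) - 1) - 2 * ε₂) ≤ T * (c - 2 * ε₂) := by
              calc ((1 - 2 * θ) * L - 5 * W) * (1 / ((p:ℝ) - 1) - 2 * ε₂)
                  ≤ T * (1 / ((p:ℝ) - 1) - 2 * ε₂) := mul_le_mul_of_nonneg_right hT2 hx
                _ ≤ T * (c - 2 * ε₂) := mul_le_mul_of_nonneg_left (by linarith) (by positivity)
            set y : ℝ := 1 / ((p:ℝ) - 1) with hy
            have hy1 : y ≤ 1 := by
              rw [hy, div_le_one (by linarith)]; exact hp1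
            have hy0 : 0 ≤ y := by rw [hy]; positivity
            have hgy : (g:ℝ) / ((p:ℝ) - 1) ≤ (1 - ε) * L * y := by
              rw [hy, mul_one_div]
              apply div_le_div_of_nonneg_right hgr (by linarith)
            -- main inequality
            have h5 : (5 * ε / (8 * P)) * L = (3 / 4 * ε) * (1 / P) * L - (ε / 8 * (1 / P)) * L := by
              field_simp; ring
            have h6 : (3 / 4 * ε) * (1 / P) * L ≤ (3 / 4 * ε) * y * L := by
              apply mul_le_mul_of_nonneg_right _ hLpos.le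
              exact mul_le_mul_of_nonneg_left hinv (by positivity)
            have h7 : (5 * (W:ℝ)) * y ≤ 5 * W := by
              have : (5 * (W:ℝ)) * y ≤ (5 * W) * 1 := mul_le_mul_of_nonneg_left hy1 (by positivity)
              linarith
            have h8 : ((1 - 2 * θ) * L - 5 * W) * (y - 2 * ε₂) =
                (1 - 2 * θ) * L * y - (1 - 2 * θ) * (2 * ε₂ * L) - 5 * W * y + 5 * W * (2 * ε₂) := by ring
            have h9 : (1 - 2 * θ) * (2 * ε₂ * L) ≤ 2 * ε₂ * L := by
              have : 0 ≤ 2 * ε₂ * L := by positivity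
              linarith [mul_nonneg (mul_nonneg zero_le_two hθ.le) this]
            have h10 : 0 ≤ 5 * (W:ℝ) * (2 * ε₂) := by positivity
            have h11 : (1 - 2 * θ) * L * y - (1 - ε) * L * y = (3 / 4 * ε) * y * L := by
              rw [hθdef]; ring
            have h12 : 2 * ε₂ * L = (ε / 8 * (1 / P)) * L := by rw [hε₂P]
            linarith
          · push Not at hpP
            have h1 := hu1 p hp hpP hpL
            have h2 : (g:ℝ) / ((p:ℝ) - 1) ≤ (L:ℝ) / ((p:ℝ) - 1) := by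
              apply div_le_div_of_nonneg_right _ (by linarith)
              exact_mod_cast hgL
            have h3 : (0:ℝ) ≤ Nat.log 2 L := by positivity
            linarith
        have hgoal' : g / (p - 1) + Nat.log 2 g + Tp p g L M ≤ Cp p L M a := by exact_mod_cast hgoal
        omega
      · push Not at hpL
        have hgp : g < p := by
          have h1 : L ≤ L ^ 4 := Nat.le_self_pow (by norm_num) L
          omega
        apply hLAR p g L M a hp hgp hML hgM
        rcases hu2 p hp hpL with h | h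
        · left; omega
        · right; omega
    -- conclusion
    have hle : g ≤ Nfa7bfd82.g (0 + 2) (M - g) := by
      apply Pool.Agent.H27.Fact.le_g (K := 0) (n := M - g) (g := g) (a₁ := a) (a₂ := M - a) (b := 0)
      · omega
      · intro p hp
        have := hCAR p g L M a hp haM hML hgM (hkey p hp)
        simpa using this
    have hle' : g ≤ Nfa7bfd82.g 2 (M - g) := hle
    omega
  have hA1 : ((2 ^ (T + B) : ℕ) : ℝ) ≤ δ / 4 * 2 ^ L := by
    have h1 : (2:ℝ) ^ L = 2 ^ T₁ * 2 ^ (T + B) := by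
      rw [← pow_add, hT₁, add_assoc]
    have h2 : (1:ℝ) ≤ δ / 4 * 2 ^ T₁ := by
      have h3 : (1:ℝ) = (1 / 2) ^ T₁ * 2 ^ T₁ := by rw [← mul_pow]; norm_num
      rw [h3]
      apply mul_le_mul_of_nonneg_right _ (by positivity)
      exact (pow_le_pow_of_le_one (by norm_num) (by norm_num) hrT₁).trans hr.le
    rw [h1]
    push_cast
    calc (2:ℝ) ^ (T + B) = 1 * 2 ^ (T + B) := (one_mul _).symm
      _ ≤ (δ / 4 * 2 ^ T₁) * 2 ^ (T + B) := mul_le_mul_of_nonneg_right h2 (by positivity)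
      _ = _ := by ring
  have hcard := card_le_card hsub
  have h1 := (hcard.trans (card_union_le _ _)).trans (Nat.add_le_add (card_union_le _ _) (card_union_le _ _))
  rw [card_range] at h1
  have h2 : (((range (2 ^ L)).filter fun M => g ≤ M ∧ Nfa7bfd82.g 2 (M - g) < g).card : ℝ) ≤
      ((2 ^ (T + B) : ℕ) : ℝ) + ((range (2 ^ L)).filter fun M => ¬ G (M / 2 ^ B)).card +
      (((range (2 ^ L)).filter fun M => ¬ TypD P₀ L B M).card +
        ((range (2 ^ L)).filter fun M => ∃ p ≤ L ^ 4, p.Prime ∧ 10 * Nat.log 2 L + 10 < Tp p g L M).card) := by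
    exact_mod_cast h1
  linarith

end Pool.Agent.H93.AS
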