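import Pool.Agent.H93.AS.Defs

/-! Rows CH0, CH1, LEV. -/

set_option autoImplicit false

open Finset

namespace Pool.Agent.H93.AS

lemma sum_mul_range (A B : ℕ) (f : ℕ → ℝ) :
    ∑ x ∈ range (A * B), f x = ∑ i ∈ range A, ∑ j ∈ range B, f (i * B + j) := by
  induction A with
  | zero => simp
  | succ A ih => rw [Nat.succ_mul, sum_range_add, ih, sum_range_succ]

lemma tot_cons (w : Σ W, Ker W) (ws : List (Σ W, Ker W)) : tot (w :: ws) = w.1 + tot ws := by
  simp [tot]

lemma Ex_nonneg (B : ℕ) : ∀ (ws : List (Σ W, Ker W)) (F : ℕ → ℕ → ℝ), (∀ n α, 0 ≤ F n α) →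
    ∀ n α, 0 ≤ Ex B ws F n α := by
  intro ws
  induction ws with
  | nil => intro F hF n α; exact hF n α
  | cons w ws ih =>
    intro F hF n α
    exact sum_nonneg fun η _ => sum_nonneg fun ξ _ => mul_nonneg (w.2.nonneg _ _ _ _ _) (ih F hF _ _)

theorem ch0 : CH0Stmt := by
  classical
  intro B ws
  induction ws with
  | nil =>
    intro F hF n α
    have h0 : tot [] = 0 := rfl
    simp only [h0, pow_zero, mul_one, range_one, Ex]
    rw [card_filter, sum_singleton]
    split_ifs with h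
    · have := h 0 (by norm_num)
      simpa using this
    · simpa using hF n α
  | cons w ws ih =>
    intro F hF n α
    set W := w.1 with hW
    set T := tot ws with hT
    have htot : tot (w :: ws) = W + T := tot_cons w ws
    rw [htot]
    have hpow : (2:ℕ) ^ (W + T) = 2 ^ W * 2 ^ T := pow_add _ _ _
    have hcard : (((range (2 ^ (W + T))).filter fun M => ∀ a < 2 ^ (W + T),
        1 ≤ F (n * 2 ^ (W + T) + M) (α * 2 ^ (W + T) + a)).card : ℝ) =
        ∑ η ∈ range (2 ^ W), (((range (2 ^ T)).filter fun M => ∀ a < 2 ^ (W + T),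
        1 ≤ F (n * 2 ^ (W + T) + (η * 2 ^ T + M)) (α * 2 ^ (W + T) + a)).card : ℝ) := by
      rw [card_filter]
      push_cast
      rw [hpow, sum_mul_range]
      apply sum_congr rfl
      intro η _
      rw [card_filter]
      push_cast
      rfl
    rw [hcard]
    show _ ≤ ∑ η ∈ range (2 ^ W), ∑ ξ ∈ range (2 ^ W),
      w.2.k (B + T) n α η ξ * Ex B ws F (n * 2 ^ W + η) (α * 2 ^ W + ξ)
    apply sum_le_sum
    intro η hη
    set c : ℝ := (((range (2 ^ T)).filter fun M => ∀ a < 2 ^ (W + T),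
        1 ≤ F (n * 2 ^ (W + T) + (η * 2 ^ T + M)) (α * 2 ^ (W + T) + a)).card : ℝ) with hc
    have h1 : c = ∑ ξ ∈ range (2 ^ W), w.2.k (B + T) n α η ξ * c := by
      rw [← sum_mul, w.2.sum_one _ _ _ _ (mem_range.1 hη), one_mul]
    rw [h1]
    apply sum_le_sum
    intro ξ hξ
    apply mul_le_mul_of_nonneg_left _ (w.2.nonneg _ _ _ _ _)
    refine le_trans ?_ (ih F hF (n * 2 ^ W + η) (α * 2 ^ W + ξ))
    rw [hc]
    have hsub : ((range (2 ^ T)).filter fun M => ∀ a < 2 ^ (W + T),
        1 ≤ F (n * 2 ^ (W + T) + (η * 2 ^ T + M)) (α * 2 ^ (W + T) + a)) ⊆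
        ((range (2 ^ T)).filter fun M => ∀ a < 2 ^ T,
        1 ≤ F ((n * 2 ^ W + η) * 2 ^ T + M) ((α * 2 ^ W + ξ) * 2 ^ T + a)) := by
      intro M hM
      rw [mem_filter] at hM ⊢
      refine ⟨hM.1, fun a ha => ?_⟩
      have hlt : ξ * 2 ^ T + a < 2 ^ (W + T) := by
        rw [hpow]
        have h2 : ξ + 1 ≤ 2 ^ W := mem_range.1 hξ
        calc ξ * 2 ^ T + a < ξ * 2 ^ T + 2 ^ T := by omega
          _ = (ξ + 1) * 2 ^ T := by ring
          _ ≤ 2 ^ W * 2 ^ T := Nat.mul_le_mul_right _ h2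
      have h3 := hM.2 _ hlt
      have e1 : n * 2 ^ (W + T) + (η * 2 ^ T + M) = (n * 2 ^ W + η) * 2 ^ T + M := by
        rw [hpow]; ring
      have e2 : α * 2 ^ (W + T) + (ξ * 2 ^ T + a) = (α * 2 ^ W + ξ) * 2 ^ T + a := by
        rw [hpow]; ring
      rwa [e1, e2] at h3
    exact_mod_cast card_le_card hsub

lemma Ex_congr (B : ℕ) : ∀ (ws : List (Σ W, Ker W)) (F G : ℕ → ℕ → ℝ) (n α : ℕ),
    (∀ n' α', n' / 2 ^ tot ws = n → α' / 2 ^ tot ws = α → F n' α' = G n' α') →
    Ex B ws F n α = Ex B ws G n α := by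
  intro ws
  induction ws with
  | nil =>
    intro F G n α h
    exact h n α (by simp [tot]) (by simp [tot])
  | cons w ws ih =>
    intro F G n α h
    simp only [Ex]
    apply sum_congr rfl
    intro η hη
    apply sum_congr rfl
    intro ξ hξ
    congr 1
    apply ih
    intro n' α' hn' hα'
    apply h
    · rw [tot_cons, add_comm, pow_add, ← Nat.div_div_eq_div_mul, hn']
      rw [mul_comm, Nat.mul_add_div (by positivity), Nat.div_eq_of_lt (mem_range.1 hη), add_zero]
    · rw [tot_cons, add_comm, pow_add, ← Nat.div_div_eq_div_mul, hα']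
      rw [mul_comm, Nat.mul_add_div (by positivity), Nat.div_eq_of_lt (mem_range.1 hξ), add_zero]

lemma Ex_smul (B : ℕ) (c : ℝ) : ∀ (ws : List (Σ W, Ker W)) (F : ℕ → ℕ → ℝ) (n α : ℕ),
    Ex B ws (fun n α => c * F n α) n α = c * Ex B ws F n α := by
  intro ws
  induction ws with
  | nil => intro F n α; rfl
  | cons w ws ih =>
    intro F n α
    simp only [Ex, ih, mul_sum]
    apply sum_congr rfl
    intro η _
    apply sum_congr rfl
    intro ξ _
    ring

lemma Ex_add (B : ℕ) : ∀ (ws : List (Σ W, Ker W)) (F G : ℕ → ℕ → ℝ) (n α : ℕ),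
    Ex B ws (fun n α => F n α + G n α) n α = Ex B ws F n α + Ex B ws G n α := by
  intro ws
  induction ws with
  | nil => intro F G n α; rfl
  | cons w ws ih =>
    intro F G n α
    simp only [Ex, ih]
    rw [← sum_add_distrib]
    apply sum_congr rfl
    intro η _
    rw [← sum_add_distrib]
    apply sum_congr rfl
    intro ξ _
    ring

lemma Ex_mono (B : ℕ) : ∀ (ws : List (Σ W, Ker W)) (F G : ℕ → ℕ → ℝ), (∀ n α, F n α ≤ G n α) →
    ∀ n α, Ex B ws F n α ≤ Ex B ws G n α := by
  intro ws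
  induction ws with
  | nil => intro F G h n α; exact h n α
  | cons w ws ih =>
    intro F G h n α
    exact sum_le_sum fun η _ => sum_le_sum fun ξ _ =>
      mul_le_mul_of_nonneg_left (ih F G h _ _) (w.2.nonneg _ _ _ _ _)

lemma bad_le (p : ℕ) (hp : 2 ≤ p) (J W n α : ℕ) : bad p J W n α ≤ W := by
  classical
  unfold bad
  have h : ((range (J + W)).filter fun I => 2 ^ J ≤ p ^ I ∧ p ^ I < 2 ^ (J + W) ∧ ¬ Sure p I J n α).card
      ≤ (Ico J (J + W)).card := by
    apply card_le_card_of_injOn (fun I => Nat.log 2 (p ^ I))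
    · intro I hI
      rw [mem_coe, mem_filter] at hI
      rw [mem_coe, mem_Ico]
      constructor
      · exact (Nat.le_log_iff_pow_le (by norm_num) (pow_pos (by omega) _).ne').2 hI.2.1
      · exact (Nat.log_lt_iff_lt_pow (by norm_num) (pow_pos (by omega) _).ne').2 hI.2.2.1
    · have hmono : StrictMono (fun I => Nat.log 2 (p ^ I)) := by
        apply strictMono_nat_of_lt_succ
        intro I
        show Nat.log 2 (p ^ I) < Nat.log 2 (p ^ (I + 1))
        have h1 : 2 ^ (Nat.log 2 (p ^ I) + 1) ≤ p ^ (I + 1) := by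
          rw [pow_succ, pow_succ]
          exact Nat.mul_le_mul (Nat.pow_log_le_self 2 (pow_pos (by omega) _).ne') hp
        exact (Nat.le_log_iff_pow_le (by norm_num) (pow_pos (by omega) _).ne').2 h1
      exact hmono.injective.injOn
  simpa using h

theorem ch1 : CH1Stmt := by
  classical
  intro p B hp ws
  induction ws with
  | nil =>
    intro bs t Wm hD ht _ _ n α
    cases bs with
    | nil => simp [Ex, tb, tot]
    | cons b bs => exact absurd hD (by simp [Dom])
  | cons w ws ih =>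
    intro bs t Wm hD ht hWm htW n α
    cases bs with
    | nil => exact absurd hD (by simp [Dom])
    | cons b bs =>
      obtain ⟨hb, hD'⟩ := hD
      set W := w.1 with hW
      set T := tot ws with hT
      have ih' := ih bs t Wm hD' ht (fun w' hw' => hWm w' (List.mem_cons_of_mem _ hw')) htW
      have hWle : (W:ℝ) ≤ Wm := by exact_mod_cast hWm w List.mem_cons_self
      set C : ℝ := 2 ^ T * Real.exp (t * bs.sum + ws.length * (t * Wm) ^ 2) with hC
      have hC0 : 0 ≤ C := by positivity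
      have hb0 : 0 ≤ b := by
        refine le_trans ?_ (hb n α)
        unfold eb
        apply div_nonneg _ (by positivity)
        exact sum_nonneg fun η _ => sum_nonneg fun ξ _ => mul_nonneg (w.2.nonneg _ _ _ _ _) (by positivity)
      -- inner
      have hinner : ∀ η < 2 ^ W, ∀ ξ < 2 ^ W,
          Ex B ws (fun n α => Real.exp (t * tb p B (w :: ws) n α)) (n * 2 ^ W + η) (α * 2 ^ W + ξ) ≤
            (1 + t * bad p (B + T) W (n * 2 ^ W + η) (α * 2 ^ W + ξ) + (t * Wm) ^ 2) * C := by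
        intro η hη ξ hξ
        have e1 : Ex B ws (fun n α => Real.exp (t * tb p B (w :: ws) n α)) (n * 2 ^ W + η) (α * 2 ^ W + ξ) =
            Real.exp (t * bad p (B + T) W (n * 2 ^ W + η) (α * 2 ^ W + ξ)) *
              Ex B ws (fun n α => Real.exp (t * tb p B ws n α)) (n * 2 ^ W + η) (α * 2 ^ W + ξ) := by
          rw [← Ex_smul]
          apply Ex_congr
          intro n' α' hn' hα'
          rw [← Real.exp_add]
          congr 1
          simp only [tb]
          rw [hn', hα']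
          push_cast
          ring
        rw [e1]
        set x : ℝ := t * bad p (B + T) W (n * 2 ^ W + η) (α * 2 ^ W + ξ) with hx
        have hbad : (bad p (B + T) W (n * 2 ^ W + η) (α * 2 ^ W + ξ) : ℝ) ≤ Wm := by
          have := bad_le p hp (B + T) W (n * 2 ^ W + η) (α * 2 ^ W + ξ)
          have h2 : (bad p (B + T) W (n * 2 ^ W + η) (α * 2 ^ W + ξ) : ℝ) ≤ W := by exact_mod_cast this
          exact h2.trans hWle
        have hx0 : 0 ≤ x := by positivity
        have hx1 : x ≤ t * Wm := mul_le_mul_of_nonneg_left hbad ht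
        have hexp : Real.exp x ≤ 1 + x + x ^ 2 := by
          have := Real.abs_exp_sub_one_sub_id_le (x := x) (by rw [abs_of_nonneg hx0]; linarith)
          have := (abs_le.1 this).2
          linarith
        have hx2 : x ^ 2 ≤ (t * Wm) ^ 2 := by
          apply pow_le_pow_left₀ hx0 hx1
        exact mul_le_mul (by linarith) (ih' _ _) (Ex_nonneg B ws _ (fun _ _ => (Real.exp_pos _).le) _ _)
          (by positivity)
      have hstep : Ex B (w :: ws) (fun n α => Real.exp (t * tb p B (w :: ws) n α)) n α ≤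
          ∑ η ∈ range (2 ^ W), ∑ ξ ∈ range (2 ^ W), w.2.k (B + T) n α η ξ *
            ((1 + t * bad p (B + T) W (n * 2 ^ W + η) (α * 2 ^ W + ξ) + (t * Wm) ^ 2) * C) := by
        show ∑ η ∈ range (2 ^ W), ∑ ξ ∈ range (2 ^ W), w.2.k (B + T) n α η ξ *
          Ex B ws (fun n α => Real.exp (t * tb p B (w :: ws) n α)) (n * 2 ^ W + η) (α * 2 ^ W + ξ) ≤ _
        apply sum_le_sum
        intro η hη
        apply sum_le_sum
        intro ξ hξ
        exact mul_le_mul_of_nonneg_left (hinner η (mem_range.1 hη) ξ (mem_range.1 hξ))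
          (w.2.nonneg _ _ _ _ _)
      refine hstep.trans ?_
      have hsum : ∑ η ∈ range (2 ^ W), ∑ ξ ∈ range (2 ^ W), w.2.k (B + T) n α η ξ *
            ((1 + t * bad p (B + T) W (n * 2 ^ W + η) (α * 2 ^ W + ξ) + (t * Wm) ^ 2) * C) =
          (2 ^ W * (1 + (t * Wm) ^ 2) + t * (2 ^ W * eb w.2 p (B + T) n α)) * C := by
        have e1 : ∀ η ∈ range (2 ^ W), ∑ ξ ∈ range (2 ^ W), w.2.k (B + T) n α η ξ *
            ((1 + t * bad p (B + T) W (n * 2 ^ W + η) (α * 2 ^ W + ξ) + (t * Wm) ^ 2) * C) =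
            (1 + (t * Wm) ^ 2) * C + t * C * ∑ ξ ∈ range (2 ^ W), w.2.k (B + T) n α η ξ *
              bad p (B + T) W (n * 2 ^ W + η) (α * 2 ^ W + ξ) := by
          intro η hη
          have e2 : ∀ ξ ∈ range (2 ^ W), w.2.k (B + T) n α η ξ *
            ((1 + t * bad p (B + T) W (n * 2 ^ W + η) (α * 2 ^ W + ξ) + (t * Wm) ^ 2) * C) =
            w.2.k (B + T) n α η ξ * ((1 + (t * Wm) ^ 2) * C) + t * C * (w.2.k (B + T) n α η ξ *
              bad p (B + T) W (n * 2 ^ W + η) (α * 2 ^ W + ξ)) := by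
            intro ξ _; ring
          rw [sum_congr rfl e2, sum_add_distrib, ← sum_mul, w.2.sum_one _ _ _ _ (mem_range.1 hη),
            one_mul, ← mul_sum]
        rw [sum_congr rfl e1, sum_add_distrib, sum_const, card_range, nsmul_eq_mul, ← mul_sum]
        have e3 : (2:ℝ) ^ W * eb w.2 p (B + T) n α = ∑ η ∈ range (2 ^ W), ∑ ξ ∈ range (2 ^ W),
            w.2.k (B + T) n α η ξ * bad p (B + T) W (n * 2 ^ W + η) (α * 2 ^ W + ξ) := by
          unfold eb
          rw [mul_div_cancel₀ _ (by positivity)]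
        rw [e3]
        push_cast
        ring
      rw [hsum]
      have hmain : 2 ^ W * (1 + (t * Wm) ^ 2) + t * (2 ^ W * eb w.2 p (B + T) n α) ≤
          2 ^ W * Real.exp (t * b + (t * Wm) ^ 2) := by
        have h1 : eb w.2 p (B + T) n α ≤ b := hb n α
        have h2 : t * b + (t * Wm) ^ 2 + 1 ≤ Real.exp (t * b + (t * Wm) ^ 2) := Real.add_one_le_exp _
        have h3 : t * eb w.2 p (B + T) n α ≤ t * b := mul_le_mul_of_nonneg_left h1 ht
        calc 2 ^ W * (1 + (t * Wm) ^ 2) + t * (2 ^ W * eb w.2 p (B + T) n α)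
            = 2 ^ W * (1 + (t * Wm) ^ 2 + t * eb w.2 p (B + T) n α) := by ring
          _ ≤ 2 ^ W * Real.exp (t * b + (t * Wm) ^ 2) :=
            mul_le_mul_of_nonneg_left (by linarith) (by positivity)
      calc _ ≤ 2 ^ W * Real.exp (t * b + (t * Wm) ^ 2) * C := mul_le_mul_of_nonneg_right hmain hC0
        _ = 2 ^ tot (w :: ws) * Real.exp (t * (b :: bs).sum + (w :: ws).length * (t * Wm) ^ 2) := by
            rw [tot_cons, hC, pow_add]
            have e4 : Real.exp (t * (b :: bs).sum + (w :: ws).length * (t * Wm) ^ 2) =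
                Real.exp (t * b + (t * Wm) ^ 2) * Real.exp (t * bs.sum + ws.length * (t * Wm) ^ 2) := by
              rw [← Real.exp_add]
              congr 1
              rw [List.sum_cons, List.length_cons]
              push_cast
              ring
            rw [e4]
            ring

/-- levels in a range without a carry -/
def NC (p M a B T : ℕ) : ℕ :=
  ((range (B + T)).filter fun I => 2 ^ B ≤ p ^ I ∧ p ^ I < 2 ^ (B + T) ∧ ¬ M % p ^ I < a % p ^ I).card

lemma sure_carry {p I J M a : ℕ} (h : Sure p I J (M / 2 ^ J) (a / 2 ^ J)) : M % p ^ I < a % p ^ I := by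
  have h1 := h (M % 2 ^ J) (Nat.mod_lt _ (by positivity)) (a % 2 ^ J) (Nat.mod_lt _ (by positivity))
  rwa [Nat.div_add_mod', Nat.div_add_mod'] at h1

lemma NC_le (p M a B : ℕ) (hp : 2 ≤ p) : ∀ ws : List (Σ W, Ker W),
    NC p M a B (tot ws) ≤ tb p B ws (M / 2 ^ B) (a / 2 ^ B) := by
  classical
  intro ws
  induction ws with
  | nil =>
    simp only [tb, nonpos_iff_eq_zero]
    unfold NC
    rw [card_eq_zero, filter_eq_empty_iff]
    intro I _ h
    simp only [tot, List.map_nil, List.sum_nil, add_zero] at h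
    omega
  | cons w ws ih =>
    simp only [tb]
    rw [tot_cons]
    have hsub : ((range (B + (w.1 + tot ws))).filter fun I => 2 ^ B ≤ p ^ I ∧ p ^ I < 2 ^ (B + (w.1 + tot ws)) ∧
        ¬ M % p ^ I < a % p ^ I) ⊆
        ((range (B + tot ws + w.1)).filter fun I => 2 ^ (B + tot ws) ≤ p ^ I ∧ p ^ I < 2 ^ (B + tot ws + w.1) ∧
          ¬ Sure p I (B + tot ws) (M / 2 ^ B / 2 ^ tot ws) (a / 2 ^ B / 2 ^ tot ws)) ∪
        ((range (B + tot ws)).filter fun I => 2 ^ B ≤ p ^ I ∧ p ^ I < 2 ^ (B + tot ws) ∧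
          ¬ M % p ^ I < a % p ^ I) := by
      intro I hI
      rw [mem_filter, mem_range] at hI
      rw [mem_union, mem_filter, mem_filter, mem_range, mem_range]
      by_cases h : 2 ^ (B + tot ws) ≤ p ^ I
      · left
        refine ⟨by omega, h, ?_, ?_⟩
        · have := hI.2.2.1
          rwa [show B + (w.1 + tot ws) = B + tot ws + w.1 by ring] at this
        · intro hs
          apply hI.2.2.2
          rw [Nat.div_div_eq_div_mul, Nat.div_div_eq_div_mul, ← pow_add] at hs
          exact sure_carry hs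
      · right
        push Not at h
        refine ⟨?_, hI.2.1, h, hI.2.2.2⟩
        have h2 : 2 ^ I ≤ p ^ I := Nat.pow_le_pow_left hp I
        exact (Nat.pow_lt_pow_iff_right (by norm_num : 1 < 2)).1 (lt_of_le_of_lt h2 h)
    unfold NC at ih ⊢
    refine (card_le_card hsub).trans ((card_union_le _ _).trans ?_)
    apply Nat.add_le_add _ ih
    unfold bad
    exact le_rfl

lemma levels (p B T : ℕ) (hp : 2 ≤ p) : (T : ℝ) * (Real.log 2 / Real.log p) - 1 ≤
    ((range (B + T)).filter fun I => 2 ^ B ≤ p ^ I ∧ p ^ I < 2 ^ (B + T)).card := by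
  classical
  have hl2 : 0 < Real.log 2 := Real.log_pos (by norm_num)
  have hlp : 0 < Real.log p := Real.log_pos (by exact_mod_cast hp)
  have hlp2 : Real.log 2 ≤ Real.log p := Real.log_le_log (by norm_num) (by exact_mod_cast hp)
  set ρ := Real.log 2 / Real.log p with hρ
  have hρ0 : 0 < ρ := div_pos hl2 hlp
  have hρ1 : ρ ≤ 1 := by rw [hρ, div_le_one hlp]; exact hlp2
  have hρl : ρ * Real.log p = Real.log 2 := by rw [hρ]; field_simp
  have hsub : Ico ⌈B * ρ⌉₊ ⌈(B + T : ℕ) * ρ⌉₊ ⊆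
      ((range (B + T)).filter fun I => 2 ^ B ≤ p ^ I ∧ p ^ I < 2 ^ (B + T)) := by
    intro I hI
    rw [mem_Ico] at hI
    have h1 : (B:ℝ) * ρ ≤ I := Nat.ceil_le.1 hI.1
    have h2 : (I:ℝ) < ((B + T : ℕ):ℝ) * ρ := Nat.lt_ceil.1 hI.2
    rw [mem_filter, mem_range]
    refine ⟨?_, ?_, ?_⟩
    · have : (I:ℝ) < ((B + T : ℕ):ℝ) := by
        refine lt_of_lt_of_le h2 ?_
        exact mul_le_of_le_one_right (by positivity) hρ1
      exact_mod_cast this
    · have h3 : Real.log ((2:ℝ) ^ B) ≤ Real.log ((p:ℝ) ^ I) := by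
        rw [Real.log_pow, Real.log_pow]
        calc (B:ℝ) * Real.log 2 = (B * ρ) * Real.log p := by rw [mul_assoc, hρl]
          _ ≤ I * Real.log p := mul_le_mul_of_nonneg_right h1 hlp.le
      have hp0 : (0:ℝ) < p := by exact_mod_cast (by omega : 0 < p)
      have := (Real.log_le_log_iff (by positivity) (by positivity)).1 h3
      exact_mod_cast this
    · have h3 : Real.log ((p:ℝ) ^ I) < Real.log ((2:ℝ) ^ (B + T)) := by
        rw [Real.log_pow, Real.log_pow]
        calc (I:ℝ) * Real.log p < ((B + T : ℕ):ℝ) * ρ * Real.log p := mul_lt_mul_of_pos_right h2 hlp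
          _ = ((B + T : ℕ):ℝ) * Real.log 2 := by rw [mul_assoc, hρl]
      have hp0 : (0:ℝ) < p := by exact_mod_cast (by omega : 0 < p)
      have := (Real.log_lt_log_iff (by positivity) (by positivity)).1 h3
      exact_mod_cast this
  have h1 := card_le_card hsub
  rw [Nat.card_Ico] at h1
  have h2 : ((B:ℝ) + T) * ρ ≤ (⌈((B + T : ℕ):ℝ) * ρ⌉₊ : ℝ) := by
    have := Nat.le_ceil (((B + T : ℕ):ℝ) * ρ)
    push_cast at this ⊢
    exact this
  have h3 : (⌈(B:ℝ) * ρ⌉₊ : ℝ) < B * ρ + 1 := Nat.ceil_lt_add_one (by positivity)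
  have h4 : (⌈((B + T : ℕ):ℝ) * ρ⌉₊ : ℝ) - (⌈(B:ℝ) * ρ⌉₊ : ℝ) ≤
      ((range (B + T)).filter fun I => 2 ^ B ≤ p ^ I ∧ p ^ I < 2 ^ (B + T)).card := by
    have h5 : ⌈((B + T : ℕ):ℝ) * ρ⌉₊ ≤ ((range (B + T)).filter fun I => 2 ^ B ≤ p ^ I ∧ p ^ I < 2 ^ (B + T)).card
        + ⌈(B:ℝ) * ρ⌉₊ := by omega
    have h6 : (⌈((B + T : ℕ):ℝ) * ρ⌉₊ : ℝ) ≤ (((range (B + T)).filter fun I => 2 ^ B ≤ p ^ I ∧ p ^ I < 2 ^ (B + T)).card : ℝ)
        + (⌈(B:ℝ) * ρ⌉₊ : ℝ) := by exact_mod_cast h5
    linarith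
  linarith

theorem lev : LEVStmt := by
  classical
  intro p B L M a ws hp hL
  have hp2 := hp.two_le
  have h1 := levels p B (tot ws) hp2
  have h2 := NC_le p M a B hp2 ws
  have h3 : ((range (B + tot ws)).filter fun I => 2 ^ B ≤ p ^ I ∧ p ^ I < 2 ^ (B + tot ws)).card ≤
      NC p M a B (tot ws) + Cp p L M a := by
    unfold NC Cp
    refine le_trans (card_le_card (t := ((range (B + tot ws)).filter fun I => 2 ^ B ≤ p ^ I ∧
      p ^ I < 2 ^ (B + tot ws) ∧ ¬ M % p ^ I < a % p ^ I) ∪ ((Ico 1 (L + 1)).filter fun i => M % p ^ i < a % p ^ i)) ?_)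
      (card_union_le _ _)
    intro I hI
    rw [mem_filter, mem_range] at hI
    rw [mem_union, mem_filter, mem_filter, mem_range, mem_Ico]
    by_cases h : M % p ^ I < a % p ^ I
    · right
      refine ⟨⟨?_, by omega⟩, h⟩
      by_contra hI0
      have : I = 0 := by omega
      rw [this, pow_zero, Nat.mod_one, Nat.mod_one] at h
      exact lt_irrefl _ h
    · left
      exact ⟨hI.1, hI.2.1, hI.2.2, h⟩
  have h4 : (((range (B + tot ws)).filter fun I => 2 ^ B ≤ p ^ I ∧ p ^ I < 2 ^ (B + tot ws)).card : ℝ) ≤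
      tb p B ws (M / 2 ^ B) (a / 2 ^ B) + Cp p L M a := by
    exact_mod_cast h3.trans (Nat.add_le_add_right h2 _)
  linarith

end Pool.Agent.H93.AS
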