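import Pool.Agent.H93.AS.Chain
import Pool.Agent.H24.FD.Defs

/-! COMB : Win → rows → DYAStmt. -/

set_option autoImplicit false

open Finset

namespace Pool.Agent.H93.AS

open Pool.Agent.H24

/-- 24's `Sure` implies ours -/
lemma sure_of {p m J n α : ℕ} (h : FD.Sure p m J (n, α)) : Sure p m J n α := by
  obtain ⟨h1, h2⟩ := h
  simp only at h1 h2
  intro u hu v hv
  have e0 : 2 ^ J ≤ p ^ m := le_trans (Nat.le_add_left _ _) h2
  have e1 : (n * 2 ^ J + u) % p ^ m = n * 2 ^ J % p ^ m + u := by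
    rw [Nat.add_mod, Nat.mod_eq_of_lt (lt_of_lt_of_le hu e0), Nat.mod_eq_of_lt]
    exact lt_of_lt_of_le (Nat.add_lt_add_left hu _)
      (h1.trans (le_trans (Nat.le_add_right _ _) h2))
  have e2 : (α * 2 ^ J + v) % p ^ m = α * 2 ^ J % p ^ m + v := by
    rw [Nat.add_mod, Nat.mod_eq_of_lt (lt_of_lt_of_le hv e0), Nat.mod_eq_of_lt]
    exact lt_of_lt_of_le (Nat.add_lt_add_left hv _) h2
  rw [e1, e2]
  exact lt_of_lt_of_le (Nat.add_lt_add_left hu _) (h1.trans (Nat.le_add_right _ _))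

lemma bad_of (p W J n α : ℕ) : bad p J W n α ≤ FD.bad p W J (n, α) := by
  classical
  unfold bad FD.bad
  apply card_le_card
  intro I hI
  rw [mem_filter, mem_range] at hI ⊢
  exact ⟨by omega, hI.2.1, hI.2.2.1, fun h => hI.2.2.2 (sure_of h)⟩

/-- kernel from the interface -/
def kerOf (W : ℕ) (P : ℕ → ℕ × ℕ → ℕ → ℕ → ℝ) (h0 : ∀ J x η ξ, 0 ≤ P J x η ξ)
    (h1 : ∀ J x, ∀ η < 2 ^ W, ∑ ξ ∈ range (2 ^ W), P J x η ξ = 1 / 2 ^ W) : Ker W where
  k J n α η ξ := 2 ^ W * P J (n, α) η ξ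
  nonneg J n α η ξ := mul_nonneg (by positivity) (h0 _ _ _ _)
  sum_one J n α η hη := by
    rw [← mul_sum, h1 _ _ _ hη]
    field_simp

lemma eb_kerOf {W : ℕ} {P : ℕ → ℕ × ℕ → ℕ → ℕ → ℝ} (h0 : ∀ J x η ξ, 0 ≤ P J x η ξ)
    (h1 : ∀ J x, ∀ η < 2 ^ W, ∑ ξ ∈ range (2 ^ W), P J x η ξ = 1 / 2 ^ W) {p J : ℕ} {b : ℝ}
    (hb : ∀ x : ℕ × ℕ, ∑ η ∈ range (2 ^ W), ∑ ξ ∈ range (2 ^ W),
        P J x η ξ * (FD.bad p W J (2 ^ W * x.1 + η, 2 ^ W * x.2 + ξ) : ℝ) ≤ b) (n α : ℕ) :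
    eb (kerOf W P h0 h1) p J n α ≤ b := by
  refine le_trans ?_ (hb (n, α))
  unfold eb
  rw [div_le_iff₀ (by positivity), sum_mul]
  apply sum_le_sum
  intro η _
  rw [sum_mul]
  apply sum_le_sum
  intro ξ _
  have h2 := bad_of p W J (n * 2 ^ W + η) (α * 2 ^ W + ξ)
  have h3 : (bad p J W (n * 2 ^ W + η) (α * 2 ^ W + ξ) : ℝ) ≤
      (FD.bad p W J (2 ^ W * n + η, 2 ^ W * α + ξ) : ℝ) := by
    rw [mul_comm n, mul_comm α] at h2 ⊢
    exact_mod_cast h2
  show 2 ^ W * P J (n, α) η ξ * _ ≤ _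
  have h4 : 0 ≤ 2 ^ W * P J (n, α) η ξ := mul_nonneg (by positivity) (h0 _ _ _ _)
  calc 2 ^ W * P J (n, α) η ξ * (bad p J W (n * 2 ^ W + η) (α * 2 ^ W + ξ) : ℝ)
      ≤ 2 ^ W * P J (n, α) η ξ * (FD.bad p W J (2 ^ W * n + η, 2 ^ W * α + ξ) : ℝ) :=
        mul_le_mul_of_nonneg_left h3 h4
    _ = P J (n, α) η ξ * (FD.bad p W J (2 ^ W * n + η, 2 ^ W * α + ξ) : ℝ) * 2 ^ W := by ring

/-- the list of bounds of a run of `r` windows above position `B` -/
def runb (β : ℕ → ℝ) (B W : ℕ) : ℕ → List ℝ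
  | 0 => []
  | r + 1 => β (B + r * W) :: runb β B W r

lemma runb_sum (β : ℕ → ℝ) (B W : ℕ) : ∀ r, (runb β B W r).sum = ∑ i ∈ range r, β (B + i * W) := by
  intro r
  induction r with
  | zero => simp [runb]
  | succ r ih => rw [runb, List.sum_cons, ih, sum_range_succ]; ring

lemma tot_append (ws ws' : List (Σ W, Ker W)) : tot (ws ++ ws') = tot ws + tot ws' := by
  simp [tot]

lemma tot_replicate (r : ℕ) (w : Σ W, Ker W) : tot (List.replicate r w) = r * w.1 := by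
  simp [tot]

lemma dom_run (p B : ℕ) (w : Σ W, Ker W) (β : ℕ → ℝ) (h : ∀ J n α, eb w.2 p J n α ≤ β J) :
    ∀ r, Dom p B (List.replicate r w) (runb β B w.1 r) := by
  intro r
  induction r with
  | zero => simp [runb, Dom]
  | succ r ih =>
    rw [List.replicate_succ, runb]
    refine ⟨fun n α => ?_, ih⟩
    rw [tot_replicate]
    exact h _ n α

lemma dom_append (p B : ℕ) : ∀ (ws : List (Σ W, Ker W)) (bs : List ℝ) (ws' : List (Σ W, Ker W)) (bs' : List ℝ),
    Dom p (B + tot ws') ws bs → Dom p B ws' bs' → Dom p B (ws ++ ws') (bs ++ bs') := by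
  intro ws
  induction ws with
  | nil =>
    intro bs ws' bs' h h'
    cases bs with
    | nil => exact h'
    | cons b bs => exact absurd h (by simp [Dom])
  | cons w ws ih =>
    intro bs ws' bs' h h'
    cases bs with
    | nil => exact absurd h (by simp [Dom])
    | cons b bs =>
      refine ⟨fun n α => ?_, ih bs ws' bs' h.2 h'⟩
      have := h.1 n α
      show eb w.2 p (B + tot (ws ++ ws')) n α ≤ b
      rw [tot_append]
      rwa [show B + (tot ws + tot ws') = B + tot ws' + tot ws by ring]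

/-- Markov + strategy: from every start, for almost all middle parts of `M` there is a middle part
of `a` with few bad levels for every prime of a finite set -/
lemma middle (B Wm : ℕ) (S : Finset ℕ) (hS : ∀ p ∈ S, 2 ≤ p) (ws : List (Σ W, Ker W))
    (bs : ℕ → List ℝ) (hD : ∀ p ∈ S, Dom p B ws (bs p)) (hW : ∀ w ∈ ws, w.1 ≤ Wm) (t θ : ℝ)
    (ht : 0 ≤ t) (htW : t * Wm ≤ 1) (n α : ℕ) :
    (((range (2 ^ tot ws)).filter fun M => ¬ ∃ a < 2 ^ tot ws, ∀ p ∈ S,
      (tb p B ws (n * 2 ^ tot ws + M) (α * 2 ^ tot ws + a) : ℝ) < (bs p).sum + θ).card : ℝ) ≤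
    2 ^ tot ws * (S.card * Real.exp (ws.length * (t * Wm) ^ 2 - t * θ)) := by
  classical
  let F : ℕ → ℕ → ℝ := fun n α => ∑ p ∈ S, Real.exp (-(t * ((bs p).sum + θ))) * Real.exp (t * tb p B ws n α)
  have hF0 : ∀ n α, 0 ≤ F n α := fun n α => sum_nonneg fun p _ => by positivity
  have h0 := ch0 B ws F hF0 n α
  have hsub : ((range (2 ^ tot ws)).filter fun M => ¬ ∃ a < 2 ^ tot ws, ∀ p ∈ S,
      (tb p B ws (n * 2 ^ tot ws + M) (α * 2 ^ tot ws + a) : ℝ) < (bs p).sum + θ) ⊆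
      ((range (2 ^ tot ws)).filter fun M => ∀ a < 2 ^ tot ws,
        1 ≤ F (n * 2 ^ tot ws + M) (α * 2 ^ tot ws + a)) := by
    intro M hM
    rw [mem_filter] at hM ⊢
    refine ⟨hM.1, fun a ha => ?_⟩
    have hM2 := hM.2
    push Not at hM2
    obtain ⟨p, hp, hle⟩ := hM2 a ha
    have h1 : (1:ℝ) ≤ Real.exp (-(t * ((bs p).sum + θ))) *
        Real.exp (t * tb p B ws (n * 2 ^ tot ws + M) (α * 2 ^ tot ws + a)) := by
      rw [← Real.exp_add]
      apply Real.one_le_exp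
      have := mul_le_mul_of_nonneg_left hle ht
      linarith
    refine h1.trans ?_
    exact single_le_sum (f := fun p => Real.exp (-(t * ((bs p).sum + θ))) *
      Real.exp (t * tb p B ws (n * 2 ^ tot ws + M) (α * 2 ^ tot ws + a)))
      (fun p _ => by positivity) hp
  have hEx : ∀ S' : Finset ℕ, Ex B ws (fun n α => ∑ p ∈ S', Real.exp (-(t * ((bs p).sum + θ))) *
      Real.exp (t * tb p B ws n α)) n α = ∑ p ∈ S', Real.exp (-(t * ((bs p).sum + θ))) *
        Ex B ws (fun n α => Real.exp (t * tb p B ws n α)) n α := by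
    intro S'
    induction S' using Finset.induction_on with
    | empty =>
      simp only [sum_empty]
      have := Ex_smul B 0 ws (fun _ _ => (0:ℝ)) n α
      simpa using this
    | insert p S' hp ih =>
      simp only [sum_insert hp]
      rw [Ex_add, ih, Ex_smul]
  calc _ ≤ (((range (2 ^ tot ws)).filter fun M => ∀ a < 2 ^ tot ws,
        1 ≤ F (n * 2 ^ tot ws + M) (α * 2 ^ tot ws + a)).card : ℝ) := by
          exact_mod_cast card_le_card hsub
    _ ≤ Ex B ws F n α := h0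
    _ = ∑ p ∈ S, Real.exp (-(t * ((bs p).sum + θ))) *
        Ex B ws (fun n α => Real.exp (t * tb p B ws n α)) n α := hEx S
    _ ≤ ∑ _p ∈ S, 2 ^ tot ws * Real.exp (ws.length * (t * Wm) ^ 2 - t * θ) := by
        apply sum_le_sum
        intro p hp
        have h1 := ch1 p B (hS p hp) ws (bs p) t Wm (hD p hp) ht hW htW n α
        calc Real.exp (-(t * ((bs p).sum + θ))) * Ex B ws (fun n α => Real.exp (t * tb p B ws n α)) n α
            ≤ Real.exp (-(t * ((bs p).sum + θ))) *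
              (2 ^ tot ws * Real.exp (t * (bs p).sum + ws.length * (t * Wm) ^ 2)) :=
              mul_le_mul_of_nonneg_left h1 (Real.exp_pos _).le
          _ = 2 ^ tot ws * Real.exp (ws.length * (t * Wm) ^ 2 - t * θ) := by
              rw [mul_left_comm, ← Real.exp_add]
              congr 2
              ring
    _ = _ := by rw [sum_const, nsmul_eq_mul]; ring

end Pool.Agent.H93.AS
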